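import Pool.Agent.H96.EM.A
import Pool.Graph.R_seed8.R460.GS.Asm

set_option autoImplicit false

/-! Families of small energy in the residue classes of every modulus. -/

namespace Pool.Agent.H96.EM
open Finset
open Pool.Agent.H96.PR (Y mu En_eq Eg)
open Pool.Agent.TH935.GF (En)
open Pool.Agent.R460.GS (ErrStm WtbStm WtdStm SmallE WinL f0 GG HH wb_of bd_LA bd_GG bd_HH bd_f0 bd_sq grid_lower
  windows_of_grid)
open Pool.Agent.Y883.GJ (LA)
open Pool.Agent.Y614.GJ.Core (ev_log)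
open Pool.Agent.Y883.T4 (class_le)

/-- few members of the family are small -/
lemma small_few (q h : ℕ) (hq : 1 ≤ q) (hh : 1 ≤ h) (a : ℕ) {ι : Type} [Fintype ι] (n : ι → ℕ) (hn : ∀ i, n i % q = a % q)
    (S : Finset ι) (Z : ℝ) (hZ : 0 ≤ Z) (hS : ∀ i ∈ S, (n i : ℝ) ≤ Z) :
    (S.card : ℝ) ^ (2 * h) ≤ (h * Z / q + 1) * En h (fun i => (n i : ℤ)) := by
  classical
  obtain ⟨T, hT⟩ : ∃ T : Finset (Fin h → ι), T = Fintype.piFinset fun _ => S := ⟨_, rfl⟩
  obtain ⟨s, hs⟩ : ∃ s : (Fin h → ι) → ℕ, s = fun p => ∑ j, n (p j) := ⟨_, rfl⟩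
  have hTc : T.card = S.card ^ h := by
    rw [hT, Fintype.card_piFinset, prod_const, card_univ, Fintype.card_fin]
  have hK : ((T.image s).card : ℝ) ≤ h * Z / q + 1 := by
    apply class_le (h * Nat.floor Z) q (h * a) hq (T.image s) (h * Z) (by positivity)
    intro m hm
    rw [mem_image] at hm
    obtain ⟨p, hp, rfl⟩ := hm
    rw [hT, Fintype.mem_piFinset] at hp
    rw [hs]
    constructor
    · have h1 : ∑ j, n (p j) ≡ ∑ _j : Fin h, a [MOD q] := by
        unfold Nat.ModEq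
        rw [sum_nat_mod, sum_nat_mod univ q (fun _ => a)]
        congr 1
        exact sum_congr rfl fun j _ => hn (p j)
      rw [sum_const, card_univ, Fintype.card_fin, smul_eq_mul] at h1
      exact h1
    · push_cast
      calc ∑ j, (n (p j) : ℝ) ≤ ∑ _j : Fin h, Z := sum_le_sum fun j _ => hS _ (hp j)
        _ = h * Z := by rw [sum_const, card_univ, Fintype.card_fin, nsmul_eq_mul]
  have h1 : (T.card : ℝ) = ∑ m ∈ T.image s, ((T.filter (fun p => s p = m)).card : ℝ) := by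
    exact_mod_cast card_eq_sum_card_image s T
  have h2 : (∑ m ∈ T.image s, ((T.filter (fun p => s p = m)).card : ℝ)) ^ 2 ≤
      (T.image s).card * ∑ m ∈ T.image s, ((T.filter (fun p => s p = m)).card : ℝ) ^ 2 := sq_sum_le_card_mul_sum_sq
  have h3 : ∑ m ∈ T.image s, ((T.filter (fun p => s p = m)).card) ^ 2 ≤ En h (fun i => (n i : ℤ)) := by
    have e1 : ∑ m ∈ T.image s, ((T.filter (fun p => s p = m)).card) ^ 2 =
        ((T ×ˢ T).filter (fun y => s y.1 = s y.2)).card := by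
      rw [card_eq_sum_card_fiberwise (f := fun y => s y.1) (t := T.image s)]
      · apply sum_congr rfl
        intro m _
        rw [sq, ← card_product]
        congr 1
        ext y
        simp only [mem_product, mem_filter]
        constructor
        · rintro ⟨⟨h5, h6⟩, h7, h8⟩
          exact ⟨⟨⟨h5, h7⟩, by rw [h6, h8]⟩, h6⟩
        · rintro ⟨⟨⟨h5, h7⟩, h8⟩, h6⟩
          exact ⟨⟨h5, h6⟩, h7, by rw [← h8]; exact h6⟩
      · intro y hy
        rw [mem_coe, mem_filter, mem_product] at hy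
        exact mem_coe.2 (mem_image_of_mem s hy.1.1)
    rw [e1, En_eq]
    unfold Eg
    apply card_le_card
    intro y hy
    rw [mem_filter] at hy ⊢
    refine ⟨mem_univ _, ?_⟩
    have h5 := hy.2
    rw [hs] at h5
    unfold mu
    have h6 : ((∑ j, n (y.1 j) : ℕ) : ℤ) = ((∑ j, n (y.2 j) : ℕ) : ℤ) := by exact_mod_cast h5
    push_cast at h6
    linarith
  have h3r : ∑ m ∈ T.image s, ((T.filter (fun p => s p = m)).card : ℝ) ^ 2 ≤ En h (fun i => (n i : ℤ)) := by exact_mod_cast h3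
  rw [← h1] at h2
  calc (S.card : ℝ) ^ (2 * h) = (T.card : ℝ) ^ 2 := by
        rw [hTc]
        push_cast
        rw [← pow_mul, mul_comm]
    _ ≤ _ := h2
    _ ≤ (h * Z / q + 1) * En h (fun i => (n i : ℤ)) := by
        have h4 : (0 : ℝ) ≤ ∑ m ∈ T.image s, ((T.filter (fun p => s p = m)).card : ℝ) ^ 2 := sum_nonneg fun _ _ => by positivity
        have h5 : 0 ≤ (h : ℝ) * Z / q + 1 := by positivity
        gcongr

/-- the energy of a subfamily -/
lemma En_sub (h : ℕ) {ι : Type} [Fintype ι] (v : ι → ℤ) (S : Finset ι) : En h (fun i : {i // i ∈ S} => v i) ≤ En h v := by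
  classical
  rw [En_eq, En_eq]
  unfold Eg
  apply card_le_card_of_injOn (fun y => ((fun j => (y.1 j : ι), fun j => (y.2 j : ι)) : Y h ι))
  · intro y hy
    rw [mem_coe, mem_filter] at hy ⊢
    exact ⟨mem_univ _, hy.2⟩
  · intro y _ y' _ hyy
    simp only [Prod.mk.injEq] at hyy
    apply Prod.ext
    · funext j
      exact Subtype.ext (congrFun hyy.1 j)
    · funext j
      exact Subtype.ext (congrFun hyy.2 j)

lemma winL_mono {A A' m : ℕ} (hA : A ≤ A') (hm : 1 ≤ Real.log m) (h : WinL A' m) : WinL A m := by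
  intro y₁ y₂ h1 h2 h3
  refine h y₁ y₂ h1 h2 (le_trans ?_ h3)
  exact div_le_div_of_nonneg_left (Nat.cast_nonneg _) (by positivity) (pow_le_pow_right₀ hm hA)

theorem fam_main (hErr : ErrStm) (hWtb : WtbStm) (hWtd : WtdStm) (ρ : ℝ) (hρ : 0 < ρ) (A T C h : ℕ) (hh : 1 ≤ h) :
    ∃ N₀ : ℕ, ∀ N : ℕ, N₀ ≤ N → ∀ q : ℕ, 1 ≤ q → (q : ℝ) ≤ (N : ℝ) ^ (7 / 10 - ρ) → ∀ a : ℕ,
      (Nat.gcd a q : ℝ) ≤ Real.log N ^ T → ∀ (ι : Type) [Fintype ι] (n : ι → ℕ), (∀ i, n i ≤ N ∧ n i % q = a % q) →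
        (En h (fun i => (n i : ℤ)) : ℝ) * N ≤ Real.log N ^ C * q * (Fintype.card ι : ℝ) ^ (2 * h) →
        ∀ S : Finset ι, (∀ i ∈ S, 0 < n i ∧ 2 ∣ n i ∧ ¬ WinL A (n i)) → (S.card : ℝ) ≤ Fintype.card ι / Real.log N ^ A := by
  classical
  obtain ⟨A', hA'⟩ : ∃ A', A' = C + 2 * h * (A + 1) + A := ⟨_, rfl⟩
  obtain ⟨V, hV⟩ : ∃ V, V = 2 * A' + 4 := ⟨_, rfl⟩
  obtain ⟨U, hU⟩ : ∃ U, U = 2 * V + 12 + A := ⟨_, rfl⟩
  obtain ⟨K, hK⟩ : ∃ K, K = C + U * (2 * h - 2) + U := ⟨_, rfl⟩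
  obtain ⟨B, hB⟩ := hErr (K + U) T (2 * V + 26) ρ hρ
  obtain ⟨E1, hE1⟩ : ∃ E1, E1 = max B (V + 8) := ⟨_, rfl⟩
  obtain ⟨N₁, h1⟩ := hB (E1 + 1)
  obtain ⟨N₂, h2⟩ := grid_lower hWtb hWtd V E1 (by rw [hE1]; exact le_max_right _ _)
  obtain ⟨N₃, h3⟩ := windows_of_grid A'
  obtain ⟨c, Nw, hWB⟩ := wb_of hWtb
  obtain ⟨N₄, h4⟩ := Filter.eventually_atTop.1 (ev_log (V + A' + 4) (s := 1 / 10) (by norm_num) (100 + h + 3 * |c|))
  refine ⟨N₁ + N₂ + N₃ + N₄ + Nw + 3, fun N hN q hq1 hqN a ha ι _ n hn hE S hS => ?_⟩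
  have : NeZero q := ⟨by omega⟩
  have hN1 : 1 ≤ N := by omega
  have hN0 : (0 : ℝ) < N := by exact_mod_cast hN1
  have hN1r : (1 : ℝ) ≤ N := by exact_mod_cast hN1
  obtain ⟨hLe, hLp⟩ := h4 N (by omega)
  have hW := hWB N (by omega)
  have hc0 := hW.nn
  rw [abs_of_nonneg hc0] at hLe
  have hh0 : (1 : ℝ) ≤ h := by exact_mod_cast hh
  have hL100' : 100 ≤ Real.log N := by linarith
  have c1 := h1 N (by omega)
  have c2 := h2 N (by omega)
  have c3 := h3 N (by omega)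
  have hbLA := bd_sq (bd_LA (N := N) (by linarith)) (by linarith)
  have hbGG := bd_sq (bd_GG (N := N) (by linarith)) (by linarith)
  have hbHH : ∀ z r, Pool.Agent.Y883.GJ.Par (2 * V + 26) N z r → ∑ n ∈ Icc 1 N, ‖HH N z r n‖ ^ 2 ≤ N * Real.log N ^ 8 :=
    fun z r hP => bd_sq (bd_HH hW hP (by linarith)) (by linarith)
  have hbf : ∀ z r, Pool.Agent.Y883.GJ.Par (2 * V + 26) N z r → ∑ n ∈ Icc 1 N, ‖f0 N z r n‖ ^ 2 ≤ N * Real.log N ^ 8 :=
    fun z r hP => bd_sq (bd_f0 hW hP (by linarith)) (by linarith)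
  obtain ⟨L, hLd⟩ : ∃ L, L = Real.log (N : ℝ) := ⟨_, rfl⟩
  rw [← hLd] at c1 c2 c3 hLe hLp ha hE hbLA hbGG hbHH hbf hL100' ⊢
  have hL0 : 0 < L := by linarith
  have hL1 : 1 ≤ L := by linarith
  have hq0 : (0 : ℝ) < q := by exact_mod_cast hq1
  obtain ⟨I, hI⟩ : ∃ I : ℝ, I = Fintype.card ι := ⟨_, rfl⟩
  rw [← hI] at hE ⊢
  rcases (show (0 : ℝ) ≤ I by rw [hI]; positivity).eq_or_lt with hI0 | hI0
  · -- no members
    have h5 : Fintype.card ι = 0 := by
      have : ((Fintype.card ι : ℕ) : ℝ) = 0 := by rw [← hI, ← hI0]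
      exact_mod_cast this
    have h6 : IsEmpty ι := Fintype.card_eq_zero_iff.1 h5
    rw [← hI0, zero_div, S.eq_empty_of_isEmpty, card_empty, Nat.cast_zero]
  -- the parameter `z`
  obtain ⟨z, hz⟩ : ∃ z, z = ⌈L ^ E1⌉₊ := ⟨_, rfl⟩
  have hzlo : L ^ E1 ≤ z := by rw [hz]; exact Nat.le_ceil _
  have hL1B : 1 ≤ L ^ E1 := one_le_pow₀ hL1
  have hzhi : (z : ℝ) ≤ L ^ (E1 + 1) := by
    have := Nat.ceil_lt_add_one (show 0 ≤ L ^ E1 by positivity)
    rw [← hz] at this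
    calc (z : ℝ) ≤ L ^ E1 + 1 := this.le
      _ ≤ L ^ E1 + L ^ E1 := by linarith
      _ = 2 * L ^ E1 := by ring
      _ ≤ L * L ^ E1 := mul_le_mul_of_nonneg_right (by linarith) (by positivity)
      _ = L ^ (E1 + 1) := by ring
  have hzB : L ^ B ≤ z := (pow_le_pow_right₀ hL1 (by rw [hE1]; exact le_max_left _ _)).trans hzlo
  obtain ⟨r, hPar, hsum, hms⟩ := c1 z hzB hzhi
  have c2' := c2 z r hzlo hzhi hPar hsum
  have hbHH' := hbHH z r hPar
  have hbf' := hbf z r hPar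
  -- the grid
  obtain ⟨Tg, hTg⟩ : ∃ Tg, Tg = ⌈L ^ V⌉₊ := ⟨_, rfl⟩
  have hT1 : L ^ V ≤ Tg := by rw [hTg]; exact Nat.le_ceil _
  have hLV : 1 ≤ L ^ V := one_le_pow₀ hL1
  have hT2 : (Tg : ℝ) ≤ L ^ V + 1 := by
    rw [hTg]
    exact (Nat.ceil_lt_add_one (by positivity)).le
  have hTpos : 0 < Tg := by
    have : (0 : ℝ) < Tg := by linarith
    exact_mod_cast this
  obtain ⟨H, hH⟩ : ∃ H, H = N / Tg + 1 := ⟨_, rfl⟩
  have hH1 : 1 ≤ H := by rw [hH]; exact Nat.le_add_left 1 _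
  have hpow1 : (N : ℝ) ^ (1 / 10 : ℝ) ≤ N := by
    calc (N : ℝ) ^ (1 / 10 : ℝ) ≤ (N : ℝ) ^ (1 : ℝ) := Real.rpow_le_rpow_of_exponent_le hN1r (by norm_num)
      _ = N := Real.rpow_one _
  have hHr : (H : ℝ) ≤ 2 * (N / L ^ V) := by
    rw [hH]
    push_cast
    have e1 : ((N / Tg : ℕ) : ℝ) ≤ N / L ^ V := by
      calc ((N / Tg : ℕ) : ℝ) ≤ (N : ℝ) / Tg := Nat.cast_div_le
        _ ≤ N / L ^ V := div_le_div_of_nonneg_left hN0.le (by positivity) hT1
    have e2 : 1 ≤ (N : ℝ) / L ^ V := by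
      rw [le_div_iff₀ (by positivity), one_mul]
      exact (pow_le_pow_right₀ hL1 (by omega)).trans (hLp.trans hpow1)
    linarith
  have hjT : ∀ j : ℕ, j * H ≤ N → j < Tg + 1 := by
    intro j hj
    by_contra hcon
    have e1 : (Tg + 1) * H ≤ j * H := Nat.mul_le_mul_right _ (by omega)
    have e2 : N < Tg * H := by
      rw [hH]
      have := Nat.lt_mul_div_succ N hTpos
      exact this
    have e3 : Tg * H ≤ (Tg + 1) * H := Nat.mul_le_mul_right _ (by omega)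
    omega
  have hgcd : ((Nat.gcd (ZMod.val (a : ZMod q)) q : ℕ) : ℝ) ≤ L ^ T := by
    rw [ZMod.val_natCast, ← Nat.gcd_rec, Nat.gcd_comm]
    exact ha
  -- the two parts
  obtain ⟨S1, hS1⟩ : ∃ S1, S1 = S.filter (fun i => (n i : ℝ) < N / L ^ (A' + 1)) := ⟨_, rfl⟩
  obtain ⟨S2, hS2⟩ : ∃ S2, S2 = S.filter (fun i => ¬ (n i : ℝ) < N / L ^ (A' + 1)) := ⟨_, rfl⟩
  have hcard : S1.card + S2.card = S.card := by
    rw [hS1, hS2]; exact card_filter_add_card_filter_not _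
  -- the small members
  have hEn : (En h (fun i => (n i : ℤ)) : ℝ) ≤ L ^ C * (q / N) * I ^ (2 * h) := by
    rw [mul_div_assoc', div_mul_eq_mul_div, le_div_iff₀ hN0]
    exact hE
  have hS1c : (S1.card : ℝ) ≤ I / L ^ (A + 1) := by
    have e1 := small_few q h hq1 hh a n (fun i => (hn i).2) S1 (N / L ^ (A' + 1)) (by positivity) (by
      intro i hi
      rw [hS1, mem_filter] at hi
      exact hi.2.le)
    have e2 : (h * (N / L ^ (A' + 1)) / q + 1) * (L ^ C * (q / N)) ≤ 1 / L ^ (2 * h * (A + 1)) := by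
      have e3 : (q : ℝ) / N ≤ 1 / L ^ (A' + 1) := by
        rw [div_le_div_iff₀ hN0 (by positivity), one_mul]
        calc (q : ℝ) * L ^ (A' + 1) ≤ (N : ℝ) ^ (7 / 10 : ℝ) * (N : ℝ) ^ (3 / 10 : ℝ) := by
              have g1 : (q : ℝ) ≤ (N : ℝ) ^ (7 / 10 : ℝ) :=
                hqN.trans (Real.rpow_le_rpow_of_exponent_le hN1r (by linarith))
              have g2 : L ^ (A' + 1) ≤ (N : ℝ) ^ (3 / 10 : ℝ) := (pow_le_pow_right₀ hL1 (by omega)).trans (hLp.trans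
                (Real.rpow_le_rpow_of_exponent_le hN1r (by norm_num)))
              gcongr
          _ = N := by rw [← Real.rpow_add hN0]; norm_num
      have e4 : (h * (N / L ^ (A' + 1)) / q + 1) * (L ^ C * (q / N)) = h * (L ^ C / L ^ (A' + 1)) + L ^ C * (q / N) := by
        field_simp
      rw [e4]
      have e5 : L ^ C / L ^ (A' + 1) = 1 / L ^ (2 * h * (A + 1)) * (1 / L ^ (A + 1)) := by
        rw [hA', show C + 2 * h * (A + 1) + A + 1 = C + (2 * h * (A + 1) + (A + 1)) by ring, pow_add, pow_add]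
        field_simp
      have e6 : L ^ C * (q / N) ≤ L ^ C / L ^ (A' + 1) := by
        rw [div_eq_mul_one_div (L ^ C)]
        gcongr
      have e7 : (h + 1 : ℝ) * (1 / L ^ (A + 1)) ≤ 1 := by
        rw [mul_one_div, div_le_one (by positivity)]
        calc (h + 1 : ℝ) ≤ L := by linarith
          _ ≤ L ^ (A + 1) := le_self_pow₀ hL1 (by omega)
      have e8 : 0 < 1 / L ^ (2 * h * (A + 1)) := by positivity
      calc h * (L ^ C / L ^ (A' + 1)) + L ^ C * (q / N) ≤ h * (L ^ C / L ^ (A' + 1)) + L ^ C / L ^ (A' + 1) := by linarith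
        _ = (1 / L ^ (2 * h * (A + 1))) * ((h + 1 : ℝ) * (1 / L ^ (A + 1))) := by rw [e5]; ring
        _ ≤ (1 / L ^ (2 * h * (A + 1))) * 1 := by gcongr
        _ = _ := mul_one _
    have e9 : (S1.card : ℝ) ^ (2 * h) ≤ (I / L ^ (A + 1)) ^ (2 * h) := by
      calc (S1.card : ℝ) ^ (2 * h) ≤ (h * (N / L ^ (A' + 1)) / q + 1) * En h (fun i => (n i : ℤ)) := e1
        _ ≤ (h * (N / L ^ (A' + 1)) / q + 1) * (L ^ C * (q / N) * I ^ (2 * h)) := by gcongr
        _ = ((h * (N / L ^ (A' + 1)) / q + 1) * (L ^ C * (q / N))) * I ^ (2 * h) := by ring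
        _ ≤ (1 / L ^ (2 * h * (A + 1))) * I ^ (2 * h) := by gcongr
        _ = _ := by rw [div_pow, ← pow_mul, mul_comm (A + 1)]; ring
    exact le_of_pow_le_pow_left₀ (by omega) (by positivity) e9
  -- the error terms
  have hCl : ∀ i ∈ S, n i ∈ Cl N q (a : ZMod q) := by
    intro i hi
    unfold Cl
    rw [mem_filter, mem_Icc]
    have := hS i hi
    have := (hn i).1
    exact ⟨by omega, (ZMod.natCast_eq_natCast_iff' (n i) a q).2 (hn i).2⟩
  obtain ⟨Er, hEr⟩ : ∃ Er : ℝ, Er = 2 * I * N * L ^ 8 / L ^ U := ⟨_, rfl⟩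
  have hEr0 : 0 ≤ Er := by rw [hEr]; positivity
  have hl1 : ∀ F : ℕ → ℂ, (F = LA ∨ F = GG N ∨ F = HH N z r) → ∀ y₁ y₂ : ℕ, y₁ ≤ N → y₂ ≤ N →
      ∑ i ∈ S, ‖Pool.Agent.R460.GS.cv F (f0 N z r) y₁ y₂ (n i)‖ ≤ Er := by
    intro F hF y₁ y₂ hy1 hy2
    have g1 := hms F hF q hqN (a : ZMod q) hgcd y₁ y₂ hy1 hy2
    have g2 : ∑ b ∈ Icc 1 N, ‖F b‖ ^ 2 ≤ N * L ^ 8 := by
      rcases hF with h5 | h5 | h5
      · rw [h5]; exact hbLA
      · rw [h5]; exact hbGG
      · rw [h5]; exact hbHH'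
    have g3 := fam_l1 F (f0 N z r) y₁ y₂ N q h hh (a : ZMod q) hy1 hy2 (N * L ^ 8) ((N : ℝ) ^ 3 / (q * L ^ (K + U)))
      g2 hbf' g1 (ι := {i // i ∈ S}) (fun i => n i) (fun i => hCl i i.2) (I / L ^ U) (I * q / (N : ℝ) ^ 2 * L ^ K)
      (by positivity) (by positivity)
    have g4 : ∑ i ∈ S, ‖Pool.Agent.R460.GS.cv F (f0 N z r) y₁ y₂ (n i)‖ = ∑ i : {i // i ∈ S}, ‖cv F (f0 N z r) y₁ y₂ (n i)‖ :=
      (sum_coe_sort S (fun i => ‖cv F (f0 N z r) y₁ y₂ (n i)‖)).symm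
    rw [g4]
    refine g3.trans ?_
    have g5 : (En h (fun i : {i // i ∈ S} => (n i : ℤ)) : ℝ) ≤ L ^ C * (q / N) * I ^ (2 * h) := by
      refine le_trans ?_ hEn
      exact_mod_cast En_sub h (fun i => (n i : ℤ)) S
    have g6 : I / L ^ U * (N * L ^ 8) = I * N * L ^ 8 / L ^ U := by ring
    have g7 : I * q / (N : ℝ) ^ 2 * L ^ K / 2 * ((N : ℝ) ^ 3 / (q * L ^ (K + U))) = 1 / 2 * (I * N / L ^ U) := by
      rw [pow_add]
      field_simp
    have g8 : 1 / (2 * (I * q / (N : ℝ) ^ 2 * L ^ K)) * ((En h (fun i : {i // i ∈ S} => (n i : ℤ)) : ℝ) / (I / L ^ U) ^ (2 * h - 2)) ≤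
        1 / 2 * (I * N / L ^ U) := by
      calc _ ≤ 1 / (2 * (I * q / (N : ℝ) ^ 2 * L ^ K)) * ((L ^ C * (q / N) * I ^ (2 * h)) / (I / L ^ U) ^ (2 * h - 2)) := by
            gcongr
        _ = 1 / 2 * (I * N / L ^ U) := by
            have e1 : I ^ (2 * h) = I ^ (2 * h - 2) * I ^ 2 := by rw [← pow_add]; congr 1; omega
            have e2 : L ^ K = L ^ C * (L ^ U) ^ (2 * h - 2) * L ^ U := by rw [hK, pow_add, pow_add, pow_mul]
            rw [e1, e2, div_pow]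
            have e3 : I ^ (2 * h - 2) ≠ 0 := by positivity
            have e4 : (L ^ U) ^ (2 * h - 2) ≠ 0 := by positivity
            generalize I ^ (2 * h - 2) = X at e3 ⊢
            generalize (L ^ U) ^ (2 * h - 2) = X' at e4 ⊢
            field_simp
    rw [g6, g7, hEr]
    have g9 : I * N / L ^ U ≤ I * N * L ^ 8 / L ^ U := by
      have : 1 ≤ L ^ 8 := one_le_pow₀ hL1
      apply div_le_div_of_nonneg_right _ (by positivity)
      exact le_mul_of_one_le_right (by positivity) this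
    have g10 : 2 * I * N * L ^ 8 / L ^ U = 2 * (I * N * L ^ 8 / L ^ U) := by ring
    linarith
  -- the second part
  obtain ⟨J, hJ⟩ : ∃ J, J = (range (Tg + 1)).filter (fun j => j * H ≤ N) := ⟨_, rfl⟩
  obtain ⟨E4, hE4⟩ : ∃ E4 : ℕ → ℕ → ℝ, E4 = fun j m => ‖Pool.Agent.R460.GS.cv LA (f0 N z r) (j * H) N m‖ +
      ‖Pool.Agent.R460.GS.cv LA (f0 N z r) N (j * H) m‖ + ‖Pool.Agent.R460.GS.cv (GG N) (f0 N z r) N (j * H) m‖ +
      ‖Pool.Agent.R460.GS.cv (HH N z r) (f0 N z r) (j * H) N m‖ := ⟨_, rfl⟩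
  have hE4n : ∀ j m, 0 ≤ E4 j m := by
    intro j m
    rw [hE4]
    positivity
  have hterm : ∀ i ∈ S2, (N : ℝ) / L ^ (V + 2) ≤ ∑ j ∈ J, E4 j (n i) := by
    intro i hi
    rw [hS2, mem_filter, not_lt] at hi
    obtain ⟨hiS, hni⟩ := hi
    obtain ⟨a1, a3, a5⟩ := hS i hiS
    have a2 := (hn i).1
    by_contra hcon
    rw [not_le] at hcon
    have hsm : ∀ j : ℕ, j * H < n i → SmallE N z r (n i) (j * H) (V + 2) := by
      intro j hj
      have k2 : E4 j (n i) ≤ ∑ j ∈ J, E4 j (n i) := by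
        refine single_le_sum (f := fun j => E4 j (n i)) (fun _ _ => hE4n _ _) ?_
        rw [hJ, mem_filter, mem_range]
        exact ⟨hjT j (by omega), by omega⟩
      rw [hE4] at k2 hcon
      simp only at k2
      have p1 := norm_nonneg (Pool.Agent.R460.GS.cv LA (f0 N z r) (j * H) N (n i))
      have p2 := norm_nonneg (Pool.Agent.R460.GS.cv LA (f0 N z r) N (j * H) (n i))
      have p3 := norm_nonneg (Pool.Agent.R460.GS.cv (GG N) (f0 N z r) N (j * H) (n i))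
      have p4 := norm_nonneg (Pool.Agent.R460.GS.cv (HH N z r) (f0 N z r) (j * H) N (n i))
      unfold SmallE
      rw [← hLd]
      refine ⟨?_, ?_, ?_, ?_⟩ <;> linarith
    have hS2' := (c2' (n i) a2 a3 (by omega) 0 0 le_rfl (by omega) (by
      have := hsm 0 (by omega)
      rwa [zero_mul] at this) (by
      have := hsm 0 (by omega)
      rwa [zero_mul] at this)).2
    have hlogn : 1 ≤ Real.log (n i) := by
      have g1 : (N : ℝ) ^ (9 / 10 : ℝ) ≤ n i := by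
        refine le_trans ?_ hni
        rw [le_div_iff₀ (by positivity)]
        calc (N : ℝ) ^ (9 / 10 : ℝ) * L ^ (A' + 1) ≤ (N : ℝ) ^ (9 / 10 : ℝ) * (N : ℝ) ^ (1 / 10 : ℝ) := by
              have : L ^ (A' + 1) ≤ (N : ℝ) ^ (1 / 10 : ℝ) := (pow_le_pow_right₀ hL1 (by omega)).trans hLp
              gcongr
          _ = N := by
              rw [← Real.rpow_add hN0]
              norm_num
      have g2 : 9 / 10 * L ≤ Real.log (n i) := by
        rw [hLd, ← Real.log_rpow hN0]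
        exact Real.log_le_log (by positivity) g1
      linarith
    apply a5
    apply winL_mono (A' := A') (by rw [hA']; omega) hlogn
    rw [hV] at hHr
    refine c3 H hH1 hHr (n i) a2 hni hS2' ?_
    intro i' j hij hj
    have hle : i' * H ≤ j * H := Nat.mul_le_mul_right _ hij
    have := (c2' (n i) a2 a3 (by omega) (i' * H) (j * H) hle hj (hsm i' (by omega)) (hsm j hj)).1
    rw [hV] at this
    exact this
  have hJc : (J.card : ℝ) ≤ 3 * L ^ V := by
    have e1 : J.card ≤ Tg + 1 := by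
      rw [hJ]
      exact (card_filter_le _ _).trans (card_range _).le
    have e2 : (J.card : ℝ) ≤ Tg + 1 := by exact_mod_cast e1
    linarith
  have hsum2 : (S2.card : ℝ) * (N / L ^ (V + 2)) ≤ 3 * L ^ V * (4 * Er) := by
    calc (S2.card : ℝ) * (N / L ^ (V + 2)) = ∑ _i ∈ S2, ((N : ℝ) / L ^ (V + 2)) := by
          rw [sum_const, nsmul_eq_mul]
      _ ≤ ∑ i ∈ S2, ∑ j ∈ J, E4 j (n i) := sum_le_sum hterm
      _ ≤ ∑ i ∈ S, ∑ j ∈ J, E4 j (n i) :=
          sum_le_sum_of_subset_of_nonneg (by rw [hS2]; exact filter_subset _ _) fun i _ _ => sum_nonneg fun j _ => hE4n _ _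
      _ = ∑ j ∈ J, ∑ i ∈ S, E4 j (n i) := sum_comm
      _ ≤ ∑ j ∈ J, 4 * Er := by
          apply sum_le_sum
          intro j hj
          rw [hJ, mem_filter] at hj
          rw [hE4]
          simp only
          rw [sum_add_distrib, sum_add_distrib, sum_add_distrib]
          have k1 := hl1 LA (Or.inl rfl) (j * H) N hj.2 le_rfl
          have k2 := hl1 LA (Or.inl rfl) N (j * H) le_rfl hj.2
          have k3 := hl1 (GG N) (Or.inr (Or.inl rfl)) N (j * H) le_rfl hj.2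
          have k4 := hl1 (HH N z r) (Or.inr (Or.inr rfl)) (j * H) N hj.2 le_rfl
          linarith
      _ = (J.card : ℝ) * (4 * Er) := by rw [sum_const, nsmul_eq_mul]
      _ ≤ (3 * L ^ V) * (4 * Er) := by gcongr
  have hS2c : (S2.card : ℝ) ≤ I / L ^ (A + 1) := by
    have h5 : 3 * L ^ V * (4 * Er) ≤ (I / L ^ (A + 1)) * (N / L ^ (V + 2)) := by
      have e1 : 3 * L ^ V * (4 * Er) = (I / L ^ (A + 1)) * (N / L ^ (V + 2)) * (24 / L) := by
        rw [hEr, hU, show 2 * V + 12 + A = V + (V + 2) + (A + 1) + 8 + 1 by ring, pow_add, pow_add, pow_add, pow_add]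
        have e2 : L ^ V ≠ 0 := by positivity
        have e3 : L ^ (V + 2) ≠ 0 := by positivity
        have e4 : L ^ (A + 1) ≠ 0 := by positivity
        generalize L ^ (V + 2) = Y at e3 ⊢
        generalize L ^ V = X at e2 ⊢
        generalize L ^ (A + 1) = Z at e4 ⊢
        field_simp
        ring
      rw [e1]
      have e5 : 24 / L ≤ 1 := by rw [div_le_one hL0]; linarith
      exact mul_le_of_le_one_right (by positivity) e5
    exact le_of_mul_le_mul_right (hsum2.trans h5) (by positivity)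
  have h5 : (S1.card : ℝ) + S2.card = S.card := by exact_mod_cast hcard
  have h6 : I / L ^ (A + 1) = I / L ^ A / L := by rw [pow_succ, div_div]
  have h7 : I / L ^ A / L ≤ I / L ^ A / 2 := div_le_div_of_nonneg_left (by positivity) (by norm_num) (by linarith)
  rw [h6] at hS1c hS2c
  linarith

end Pool.Agent.H96.EM
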