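import Pool.Agent.H96.PR.E

set_option autoImplicit false

/-! From the mean square over a residue class to families of small energy in this class. -/

namespace Pool.Agent.H96.EM
open Finset
open Pool.Agent.H96.PR (e norm_e e_add e_zero e_int conj_e e_sum Y mu norm_pow_eq orth En_eq Eg)
open Pool.Agent.TH935.GF (En)

/-- orthogonality for integers divisible by `q` -/
lemma orth_q (q M : ℕ) (hq : 1 ≤ q) (hM : 1 ≤ M) (k : ℤ) (hk : (q : ℤ) ∣ k) (hkM : |k| < q * M) :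
    ∑ t ∈ range M, e ((t : ℝ) / (q * M) * k) = if k = 0 then (M : ℂ) else 0 := by
  obtain ⟨c, rfl⟩ := hk
  have hq0 : (q : ℝ) ≠ 0 := by positivity
  have h1 : ∀ t ∈ range M, e ((t : ℝ) / (q * M) * ((q * c : ℤ) : ℝ)) = e ((t : ℝ) / M * c) := by
    intro t _
    congr 1
    push_cast
    field_simp
  rw [sum_congr rfl h1, orth M hM c]
  have hq1 : (0 : ℤ) < q := by exact_mod_cast hq
  by_cases hc : c = 0
  · rw [hc, if_pos (dvd_zero _), if_pos (mul_zero _)]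
  · rw [if_neg, if_neg]
    · exact mul_ne_zero hq1.ne' hc
    · intro hd
      apply hc
      apply Int.eq_zero_of_abs_lt_dvd hd
      rw [abs_mul, abs_of_pos hq1] at hkM
      exact lt_of_mul_lt_mul_left hkM hq1.le

/-- Parseval for the integers of a residue class -/
lemma parseval_q (q M : ℕ) (hq : 1 ≤ q) (hM : 1 ≤ M) (S : Finset ℕ) (hS : ∀ n ∈ S, ∀ n' ∈ S, (q : ℤ) ∣ (n : ℤ) - n' ∧
    |(n : ℤ) - n'| < q * M) (c : ℕ → ℂ) :
    ∑ t ∈ range M, ‖∑ n ∈ S, c n * e ((t : ℝ) / (q * M) * n)‖ ^ 2 = M * ∑ n ∈ S, ‖c n‖ ^ 2 := by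
  have h1 : ∀ t : ℕ, ((‖∑ n ∈ S, c n * e ((t : ℝ) / (q * M) * n)‖ ^ 2 : ℝ) : ℂ) =
      ∑ n ∈ S, ∑ n' ∈ S, c n * (starRingEnd ℂ) (c n') * e ((t : ℝ) / (q * M) * (((n : ℤ) - n' : ℤ) : ℝ)) := by
    intro t
    have h2 := Complex.mul_conj (∑ n ∈ S, c n * e ((t : ℝ) / (q * M) * n))
    rw [Complex.normSq_eq_norm_sq] at h2
    rw [← h2, map_sum, sum_mul_sum]
    apply sum_congr rfl
    intro n _
    apply sum_congr rfl
    intro n' _
    rw [map_mul, conj_e]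
    have : e ((t : ℝ) / (q * M) * (((n : ℤ) - n' : ℤ) : ℝ)) = e ((t : ℝ) / (q * M) * n) * e (-((t : ℝ) / (q * M) * n')) := by
      rw [← e_add]
      congr 1
      push_cast
      ring
    rw [this]
    ring
  have h3 : ((∑ t ∈ range M, ‖∑ n ∈ S, c n * e ((t : ℝ) / (q * M) * n)‖ ^ 2 : ℝ) : ℂ) = ((M * ∑ n ∈ S, ‖c n‖ ^ 2 : ℝ) : ℂ) := by
    have hR : ((M * ∑ n ∈ S, ‖c n‖ ^ 2 : ℝ) : ℂ) = ∑ n ∈ S, (M : ℂ) * (c n * (starRingEnd ℂ) (c n)) := by
      push_cast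
      rw [mul_sum]
      apply sum_congr rfl
      intro n _
      rw [Complex.mul_conj, Complex.normSq_eq_norm_sq]
      push_cast
      rfl
    rw [hR, Complex.ofReal_sum, sum_congr rfl (fun t _ => h1 t), sum_comm]
    apply sum_congr rfl
    intro n hn
    rw [sum_comm]
    have h4 : ∀ n' ∈ S, ∑ t ∈ range M, c n * (starRingEnd ℂ) (c n') * e ((t : ℝ) / (q * M) * (((n : ℤ) - n' : ℤ) : ℝ)) =
        if n' = n then (M : ℂ) * (c n * (starRingEnd ℂ) (c n)) else 0 := by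
      intro n' hn'
      obtain ⟨h5, h6⟩ := hS n hn n' hn'
      rw [← mul_sum, orth_q q M hq hM _ h5 h6]
      by_cases h7 : n' = n
      · rw [if_pos h7, if_pos (by rw [h7, sub_self]), h7]
        ring
      · rw [if_neg h7, if_neg, mul_zero]
        intro h8
        apply h7
        omega
    rw [sum_congr rfl h4, sum_ite_eq' S n, if_pos hn]
  exact_mod_cast h3

/-- the integers `n ≤ 2 N` of a residue class -/
def Cl (N q : ℕ) (a : ZMod q) : Finset ℕ := (Icc 1 (2 * N)).filter (fun n : ℕ => (n : ZMod q) = a)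

lemma cl_diff {N q : ℕ} {a : ZMod q} {n n' : ℕ} (hn : n ∈ Cl N q a) (hn' : n' ∈ Cl N q a) : (q : ℤ) ∣ (n : ℤ) - n' := by
  unfold Cl at hn hn'
  rw [mem_filter] at hn hn'
  rw [← ZMod.intCast_zmod_eq_zero_iff_dvd]
  push_cast
  rw [hn.2, hn'.2, sub_self]

/-- convolution -/
noncomputable def cv (F G : ℕ → ℂ) (y₁ y₂ n : ℕ) : ℂ :=
  ∑ b ∈ Icc 1 y₁, ∑ c ∈ Icc 1 y₂, if b + c = n then F b * G c else 0

/-- its exponential sum over the residue class -/
noncomputable def Ph (F G : ℕ → ℂ) (y₁ y₂ N q : ℕ) (a : ZMod q) (β : ℝ) : ℂ := ∑ n ∈ Cl N q a, cv F G y₁ y₂ n * e (β * n)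

/-- the part of an exponential sum in a residue class -/
noncomputable def cp (F : ℕ → ℂ) (y q : ℕ) (l : ZMod q) (β : ℝ) : ℂ :=
  ∑ b ∈ (Icc 1 y).filter (fun b : ℕ => (b : ZMod q) = l), F b * e (β * b)

lemma ph_eq (F G : ℕ → ℂ) (y₁ y₂ N q : ℕ) [NeZero q] (a : ZMod q) (β : ℝ) (h1 : y₁ ≤ N) (h2 : y₂ ≤ N) :
    Ph F G y₁ y₂ N q a β = ∑ l : ZMod q, cp F y₁ q l β * cp G y₂ q (a - l) β := by
  unfold Ph cv
  have e1 : ∑ n ∈ Cl N q a, (∑ b ∈ Icc 1 y₁, ∑ c ∈ Icc 1 y₂, if b + c = n then F b * G c else 0) * e (β * n) =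
      ∑ b ∈ Icc 1 y₁, ∑ c ∈ Icc 1 y₂, if ((b : ZMod q) + (c : ZMod q)) = a then (F b * e (β * b)) * (G c * e (β * c)) else 0 := by
    simp only [sum_mul]
    rw [sum_comm]
    apply sum_congr rfl
    intro b hb
    rw [sum_comm]
    apply sum_congr rfl
    intro c hc
    rw [mem_Icc] at hb hc
    have h3 : ∀ n ∈ Cl N q a, (if b + c = n then F b * G c else 0) * e (β * n) =
        if n = b + c then (F b * e (β * b)) * (G c * e (β * c)) else 0 := by
      intro n _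
      by_cases h : b + c = n
      · rw [if_pos h, if_pos h.symm, ← h]
        push_cast
        rw [mul_add, e_add]
        ring
      · rw [if_neg h, if_neg (fun h' => h h'.symm), zero_mul]
    rw [sum_congr rfl h3, sum_ite_eq' (Cl N q a) (b + c)]
    unfold Cl
    simp only [mem_filter, mem_Icc]
    push_cast
    by_cases h : (b : ZMod q) + (c : ZMod q) = a
    · rw [if_pos h, if_pos ⟨by omega, h⟩]
    · rw [if_neg h, if_neg (fun h' => h h'.2)]
  rw [e1]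
  have e2 : ∀ l : ZMod q, cp F y₁ q l β * cp G y₂ q (a - l) β =
      ∑ b ∈ Icc 1 y₁, ∑ c ∈ Icc 1 y₂, if (b : ZMod q) = l ∧ (c : ZMod q) = a - l then (F b * e (β * b)) * (G c * e (β * c)) else 0 := by
    intro l
    unfold cp
    rw [sum_filter, sum_filter, sum_mul_sum]
    apply sum_congr rfl
    intro b _
    apply sum_congr rfl
    intro c _
    by_cases hb : (b : ZMod q) = l
    · by_cases hc : (c : ZMod q) = a - l
      · rw [if_pos hb, if_pos hc, if_pos ⟨hb, hc⟩]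
      · rw [if_neg hc, mul_zero, if_neg (fun h => hc h.2)]
    · rw [if_neg hb, zero_mul, if_neg (fun h => hb h.1)]
  rw [sum_congr rfl (fun l _ => e2 l)]
  symm
  rw [sum_comm]
  apply sum_congr rfl
  intro b _
  rw [sum_comm]
  apply sum_congr rfl
  intro c _
  have e3 : ∀ l : ZMod q, (if (b : ZMod q) = l ∧ (c : ZMod q) = a - l then (F b * e (β * b)) * (G c * e (β * c)) else 0) =
      if l = (b : ZMod q) then (if (b : ZMod q) + (c : ZMod q) = a then (F b * e (β * b)) * (G c * e (β * c)) else 0) else 0 := by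
    intro l
    by_cases hb : l = (b : ZMod q)
    · subst hb
      rw [if_pos rfl]
      by_cases hc : (b : ZMod q) + (c : ZMod q) = a
      · rw [if_pos hc, if_pos ⟨rfl, by rw [← hc]; ring⟩]
      · rw [if_neg hc, if_neg]
        rintro ⟨-, h⟩
        apply hc
        rw [h]
        ring
    · rw [if_neg hb, if_neg (fun h => hb h.1.symm)]
  rw [sum_congr rfl (fun l _ => e3 l), sum_ite_eq' univ (b : ZMod q), if_pos (mem_univ _)]

lemma cp_sum (F : ℕ → ℂ) (y N q M : ℕ) [NeZero q] (hM : 1 ≤ M) (hy : y ≤ N) (hMN : N < q * M) :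
    ∑ t ∈ range M, ∑ l : ZMod q, ‖cp F y q l ((t : ℝ) / (q * M))‖ ^ 2 ≤ M * ∑ b ∈ Icc 1 N, ‖F b‖ ^ 2 := by
  have hq : 1 ≤ q := NeZero.one_le
  rw [sum_comm]
  have h1 : ∀ l : ZMod q, ∑ t ∈ range M, ‖cp F y q l ((t : ℝ) / (q * M))‖ ^ 2 =
      M * ∑ b ∈ (Icc 1 y).filter (fun b : ℕ => (b : ZMod q) = l), ‖F b‖ ^ 2 := by
    intro l
    unfold cp
    apply parseval_q q M hq hM
    intro n hn n' hn'
    rw [mem_filter, mem_Icc] at hn hn'
    constructor
    · rw [← ZMod.intCast_zmod_eq_zero_iff_dvd]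
      push_cast
      rw [hn.2, hn'.2, sub_self]
    · have : (N : ℤ) < q * M := by exact_mod_cast hMN
      rw [abs_lt]
      constructor <;> omega
  rw [sum_congr rfl (fun l _ => h1 l), ← mul_sum]
  apply mul_le_mul_of_nonneg_left _ (Nat.cast_nonneg _)
  rw [sum_fiberwise_eq_sum_filter]
  calc ∑ b ∈ (Icc 1 y).filter (fun b : ℕ => (b : ZMod q) ∈ (univ : Finset (ZMod q))), ‖F b‖ ^ 2 ≤ ∑ b ∈ Icc 1 N, ‖F b‖ ^ 2 := by
        apply sum_le_sum_of_subset_of_nonneg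
        · intro b hb
          rw [mem_filter, mem_Icc] at hb
          rw [mem_Icc]
          omega
        · intro _ _ _
          positivity

/-- the mean value of the exponential sum of the convolution -/
lemma ph_l1 (F G : ℕ → ℂ) (y₁ y₂ N q M : ℕ) [NeZero q] (a : ZMod q) (h1 : y₁ ≤ N) (h2 : y₂ ≤ N) (hM : 1 ≤ M)
    (hMN : N < q * M) (W : ℝ) (hF : ∑ b ∈ Icc 1 N, ‖F b‖ ^ 2 ≤ W) (hG : ∑ b ∈ Icc 1 N, ‖G b‖ ^ 2 ≤ W) :
    ∑ t ∈ range M, ‖Ph F G y₁ y₂ N q a ((t : ℝ) / (q * M))‖ ≤ M * W := by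
  have h3 : ∀ β : ℝ, ‖Ph F G y₁ y₂ N q a β‖ ≤ 1 / 2 * (∑ l : ZMod q, ‖cp F y₁ q l β‖ ^ 2) + 1 / 2 * (∑ l : ZMod q, ‖cp G y₂ q l β‖ ^ 2) := by
    intro β
    rw [ph_eq F G y₁ y₂ N q a β h1 h2]
    refine (norm_sum_le _ _).trans ?_
    have e1 : ∑ l : ZMod q, ‖cp G y₂ q l β‖ ^ 2 = ∑ l : ZMod q, ‖cp G y₂ q (a - l) β‖ ^ 2 :=
      (Equiv.sum_comp (Equiv.subLeft a) (fun l => ‖cp G y₂ q l β‖ ^ 2)).symm
    rw [e1, mul_sum, mul_sum, ← sum_add_distrib]
    apply sum_le_sum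
    intro l _
    rw [norm_mul]
    nlinarith [sq_nonneg (‖cp F y₁ q l β‖ - ‖cp G y₂ q (a - l) β‖)]
  refine (sum_le_sum fun t _ => h3 _).trans ?_
  rw [sum_add_distrib, ← mul_sum, ← mul_sum]
  have h4 := cp_sum F y₁ N q M hM h1 hMN
  have h5 := cp_sum G y₂ N q M hM h2 hMN
  have hM0 : (0 : ℝ) ≤ M := Nat.cast_nonneg _
  have h6 := mul_le_mul_of_nonneg_left hF hM0
  have h7 := mul_le_mul_of_nonneg_left hG hM0
  linarith

/-- **From the mean square to families.** -/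
theorem fam_l1 (F G : ℕ → ℂ) (y₁ y₂ N q h : ℕ) [NeZero q] (hh : 1 ≤ h) (a : ZMod q) (h1 : y₁ ≤ N) (h2 : y₂ ≤ N)
    (W W₂ : ℝ) (hF : ∑ b ∈ Icc 1 N, ‖F b‖ ^ 2 ≤ W) (hG : ∑ b ∈ Icc 1 N, ‖G b‖ ^ 2 ≤ W)
    (hW₂ : ∑ n ∈ Cl N q a, ‖cv F G y₁ y₂ n‖ ^ 2 ≤ W₂) {ι : Type} [Fintype ι] (n : ι → ℕ) (hn : ∀ i, n i ∈ Cl N q a)
    (lam μ : ℝ) (hlam : 0 < lam) (hμ : 0 < μ) :
    ∑ i, ‖cv F G y₁ y₂ (n i)‖ ≤ lam * W + μ / 2 * W₂ + 1 / (2 * μ) * ((En h (fun i => (n i : ℤ)) : ℝ) / lam ^ (2 * h - 2)) := by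
  classical
  have hq : 1 ≤ q := NeZero.one_le
  obtain ⟨M, hMd⟩ : ∃ M : ℕ, M = 4 * h * N + 1 := ⟨_, rfl⟩
  have hM : 1 ≤ M := by omega
  have hqM : 4 * h * N < q * M := by
    calc 4 * h * N < M := by omega
      _ ≤ q * M := Nat.le_mul_of_pos_left _ hq
  have hhN : N ≤ h * N := Nat.le_mul_of_pos_left _ hh
  have hMN : 2 * N < q * M := by
    have : 4 * h * N = 4 * (h * N) := by ring
    omega
  have hM0 : (0 : ℝ) < M := by exact_mod_cast hM
  have hClN : ∀ m ∈ Cl N q a, 1 ≤ m ∧ m ≤ 2 * N := by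
    intro m hm
    unfold Cl at hm
    rw [mem_filter, mem_Icc] at hm
    exact hm.1
  obtain ⟨w, hw⟩ : ∃ w : ℕ → ℂ, w = cv F G y₁ y₂ := ⟨_, rfl⟩
  obtain ⟨P, hP⟩ : ∃ P : ℕ → ℂ, P = fun t : ℕ => Ph F G y₁ y₂ N q a ((t : ℝ) / (q * M)) := ⟨_, rfl⟩
  -- phases
  obtain ⟨b, hb1, hb2⟩ : ∃ b : ι → ℂ, (∀ i, ‖b i‖ ≤ 1) ∧ ∀ i, b i * w (n i) = (‖w (n i)‖ : ℂ) := by
    refine ⟨fun i => (starRingEnd ℂ) (w (n i)) / (‖w (n i)‖ : ℂ), fun i => ?_, fun i => ?_⟩
    · simp only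
      rw [norm_div, RCLike.norm_conj, Complex.norm_real, norm_norm]
      exact div_self_le_one _
    · simp only
      by_cases h0 : w (n i) = 0
      · rw [h0]; simp
      · have h3 : (‖w (n i)‖ : ℂ) ≠ 0 := by
          rw [Ne, Complex.ofReal_eq_zero, norm_eq_zero]
          exact h0
        rw [div_mul_eq_mul_div, mul_comm, Complex.mul_conj, Complex.normSq_eq_norm_sq]
        push_cast
        field_simp
  obtain ⟨S, hS⟩ : ∃ S : ℕ → ℂ, S = fun t : ℕ => ∑ i, b i * e (-((t : ℝ) / (q * M) * n i)) := ⟨_, rfl⟩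
  -- inversion
  have hinv : ∀ m ∈ Cl N q a, ∑ t ∈ range M, P t * e (-((t : ℝ) / (q * M) * m)) = M * w m := by
    intro m hm
    have e1 : ∀ t ∈ range M, P t * e (-((t : ℝ) / (q * M) * m)) =
        ∑ n' ∈ Cl N q a, w n' * e ((t : ℝ) / (q * M) * (((n' : ℤ) - m : ℤ) : ℝ)) := by
      intro t _
      rw [hP, hw]
      unfold Ph
      rw [sum_mul]
      apply sum_congr rfl
      intro n' _
      rw [mul_assoc, ← e_add]
      congr 2
      push_cast
      ring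
    rw [sum_congr rfl e1, sum_comm]
    have e2 : ∀ n' ∈ Cl N q a, ∑ t ∈ range M, w n' * e ((t : ℝ) / (q * M) * (((n' : ℤ) - m : ℤ) : ℝ)) =
        if n' = m then M * w m else 0 := by
      intro n' hn'
      rw [← mul_sum, orth_q q M hq hM _ (cl_diff hn' hm) (by
        have := hClN n' hn'
        have := hClN m hm
        have : (2 * N : ℤ) < q * M := by exact_mod_cast hMN
        rw [abs_lt]
        constructor <;> omega)]
      by_cases h7 : n' = m
      · rw [if_pos h7, if_pos (by rw [h7, sub_self]), h7]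
        ring
      · rw [if_neg h7, if_neg, mul_zero]
        omega
    rw [sum_congr rfl e2, sum_ite_eq' _ m, if_pos hm]
  have hid : ((∑ i, ‖w (n i)‖ : ℝ) : ℂ) * M = ∑ t ∈ range M, P t * S t := by
    rw [hS]
    simp only [mul_sum]
    rw [sum_comm]
    push_cast
    rw [sum_mul]
    apply sum_congr rfl
    intro i _
    have e1 := hinv (n i) (hn i)
    have e2 : ∑ t ∈ range M, P t * (b i * e (-((t : ℝ) / (q * M) * n i))) = b i * ∑ t ∈ range M, P t * e (-((t : ℝ) / (q * M) * n i)) := by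
      rw [mul_sum]
      apply sum_congr rfl
      intro t _
      ring
    rw [e2, e1, ← hb2 i]
    ring
  have hle : (∑ i, ‖w (n i)‖) * M ≤ ∑ t ∈ range M, ‖P t‖ * ‖S t‖ := by
    have e1 : (∑ i, ‖w (n i)‖) * M = ‖((∑ i, ‖w (n i)‖ : ℝ) : ℂ) * M‖ := by
      rw [norm_mul, Complex.norm_real, Real.norm_of_nonneg (sum_nonneg fun _ _ => norm_nonneg _), Complex.norm_natCast]
    rw [e1, hid]
    refine (norm_sum_le _ _).trans (le_of_eq ?_)
    exact sum_congr rfl fun t _ => norm_mul _ _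
  -- the three sums
  have hX1 : ∑ t ∈ range M, ‖P t‖ ≤ M * W := by
    rw [hP]
    exact ph_l1 F G y₁ y₂ N q M a h1 h2 hM (by omega) W hF hG
  have hX2 : ∑ t ∈ range M, ‖P t‖ ^ 2 ≤ M * W₂ := by
    rw [hP]
    unfold Ph
    rw [parseval_q q M hq hM (Cl N q a) (fun n hn n' hn' => ⟨cl_diff hn hn', by
      have := hClN n hn
      have := hClN n' hn'
      have : (2 * N : ℤ) < q * M := by exact_mod_cast hMN
      rw [abs_lt]
      constructor <;> omega⟩)]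
    gcongr
  have hX3 : ∑ t ∈ range M, ‖S t‖ ^ (2 * h) ≤ M * En h (fun i => (n i : ℤ)) := by
    have e1 : ((∑ t ∈ range M, ‖S t‖ ^ (2 * h) : ℝ) : ℂ) = ∑ y : Y h ι, ((∏ j, b (y.1 j)) * ∏ j, (starRingEnd ℂ) (b (y.2 j))) *
        (if mu (fun i => (n i : ℤ)) y = 0 then (M : ℂ) else 0) := by
      rw [Complex.ofReal_sum]
      have e2 : ∀ t ∈ range M, ((‖S t‖ ^ (2 * h) : ℝ) : ℂ) = ∑ y : Y h ι, ((∏ j, b (y.1 j)) * ∏ j, (starRingEnd ℂ) (b (y.2 j))) *
          e ((t : ℝ) / (q * M) * ((-(mu (fun i => (n i : ℤ)) y) : ℤ) : ℝ)) := by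
        intro t _
        rw [hS, norm_pow_eq]
        apply sum_congr rfl
        intro y _
        rw [prod_mul_distrib]
        simp only [map_mul]
        rw [prod_mul_distrib]
        have e3 : ∏ j, (starRingEnd ℂ) (e (-((t : ℝ) / (q * M) * (n (y.2 j) : ℝ)))) = ∏ j, e (((t : ℝ) / (q * M) * (n (y.2 j) : ℝ))) :=
          prod_congr rfl fun j _ => by rw [conj_e, neg_neg]
        have e4 : e ((t : ℝ) / (q * M) * ((-(mu (fun i => (n i : ℤ)) y) : ℤ) : ℝ)) =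
            (∏ j, e (-((t : ℝ) / (q * M) * (n (y.1 j) : ℝ)))) * ∏ j, e (((t : ℝ) / (q * M) * (n (y.2 j) : ℝ))) := by
          rw [← e_sum, ← e_sum, ← e_add]
          congr 1
          unfold mu
          push_cast
          rw [sum_neg_distrib, ← mul_sum, ← mul_sum]
          ring
        rw [e3, e4]
        ring
      rw [sum_congr rfl e2, sum_comm]
      apply sum_congr rfl
      intro y _
      rw [← mul_sum]
      congr 1
      have hcl : ∀ i, ∃ c : ℤ, (n i : ℤ) = a.val + q * c := by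
        intro i
        have e5 := hn i
        unfold Cl at e5
        rw [mem_filter] at e5
        have e6 : (q : ℤ) ∣ (n i : ℤ) - a.val := by
          rw [← ZMod.intCast_zmod_eq_zero_iff_dvd]
          push_cast
          rw [e5.2, ZMod.natCast_zmod_val, sub_self]
        obtain ⟨c, hc⟩ := e6
        exact ⟨c, by rw [← hc]; ring⟩
      choose c hc using hcl
      have hmu : mu (fun i => (n i : ℤ)) y = q * mu c y := by
        unfold mu
        simp only [hc]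
        rw [sum_add_distrib, sum_add_distrib, mul_sub, mul_sum, mul_sum]
        simp only [sum_const]
        ring
      have hmub : |mu (fun i => (n i : ℤ)) y| ≤ ((2 * h * (2 * N) : ℕ) : ℤ) :=
        Pool.Agent.H96.PR.mu_le (fun i => (n i : ℤ)) (2 * N) (fun i => by
          have := hClN (n i) (hn i)
          rw [abs_of_nonneg (by positivity)]
          exact_mod_cast this.2) y
      rw [orth_q q M hq hM _ (by rw [hmu]; exact (dvd_mul_right _ _).neg_right) (by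
        rw [abs_neg]
        refine lt_of_le_of_lt hmub ?_
        have : 2 * h * (2 * N) < q * M := by
          calc 2 * h * (2 * N) = 4 * h * N := by ring
            _ < q * M := hqM
        exact_mod_cast this)]
      simp only [neg_eq_zero]
    have e5 : ∑ t ∈ range M, ‖S t‖ ^ (2 * h) = ‖((∑ t ∈ range M, ‖S t‖ ^ (2 * h) : ℝ) : ℂ)‖ := by
      rw [Complex.norm_real, Real.norm_of_nonneg (sum_nonneg fun _ _ => by positivity)]
    rw [e5, e1]
    refine (norm_sum_le _ _).trans ?_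
    rw [En_eq]
    unfold Eg
    calc ∑ y : Y h ι, ‖((∏ j, b (y.1 j)) * ∏ j, (starRingEnd ℂ) (b (y.2 j))) * (if mu (fun i => (n i : ℤ)) y = 0 then (M : ℂ) else 0)‖ ≤
          ∑ y : Y h ι, (if mu (fun i => (n i : ℤ)) y = 0 then (M : ℝ) else 0) := by
          apply sum_le_sum
          intro y _
          rw [norm_mul, norm_mul, norm_prod, norm_prod]
          have g1 : ∏ j, ‖b (y.1 j)‖ ≤ 1 := prod_le_one (fun _ _ => norm_nonneg _) (fun _ _ => hb1 _)
          have g2 : ∏ j, ‖(starRingEnd ℂ) (b (y.2 j))‖ ≤ 1 := prod_le_one (fun _ _ => norm_nonneg _) (fun _ _ => by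
            rw [RCLike.norm_conj]; exact hb1 _)
          have g3 : (∏ j, ‖b (y.1 j)‖) * ∏ j, ‖(starRingEnd ℂ) (b (y.2 j))‖ ≤ 1 :=
            mul_le_one₀ g1 (prod_nonneg fun _ _ => norm_nonneg _) g2
          split_ifs
          · rw [Complex.norm_natCast]
            exact mul_le_of_le_one_left (Nat.cast_nonneg _) g3
          · rw [norm_zero, mul_zero]
      _ = M * (((univ : Finset (Y h ι)).filter (fun y => mu (fun i => (n i : ℤ)) y = 0)).card : ℝ) := by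
          rw [← sum_filter, sum_const, nsmul_eq_mul, mul_comm]
  -- the combination
  have hpt : ∀ t ∈ range M, ‖P t‖ * ‖S t‖ ≤ lam * ‖P t‖ + μ / 2 * ‖P t‖ ^ 2 + 1 / (2 * μ) * (‖S t‖ ^ (2 * h) / lam ^ (2 * h - 2)) := by
    intro t _
    have hp := norm_nonneg (P t)
    have hs := norm_nonneg (S t)
    rcases le_or_gt (‖S t‖) lam with hc | hc
    · have g1 : ‖P t‖ * ‖S t‖ ≤ lam * ‖P t‖ := by nlinarith
      have g2 : 0 ≤ μ / 2 * ‖P t‖ ^ 2 := by positivity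
      have g3 : 0 ≤ 1 / (2 * μ) * (‖S t‖ ^ (2 * h) / lam ^ (2 * h - 2)) := by positivity
      linarith
    · have g1 : ‖S t‖ ^ 2 ≤ ‖S t‖ ^ (2 * h) / lam ^ (2 * h - 2) := by
        rw [le_div_iff₀ (by positivity)]
        calc ‖S t‖ ^ 2 * lam ^ (2 * h - 2) ≤ ‖S t‖ ^ 2 * ‖S t‖ ^ (2 * h - 2) := by gcongr
          _ = ‖S t‖ ^ (2 * h) := by
              rw [← pow_add]
              congr 1
              omega
      have g2 : ‖P t‖ * ‖S t‖ ≤ μ / 2 * ‖P t‖ ^ 2 + 1 / (2 * μ) * ‖S t‖ ^ 2 := by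
        have g3 : 0 ≤ (μ * ‖P t‖ - ‖S t‖) ^ 2 := sq_nonneg _
        have g4 : μ / 2 * ‖P t‖ ^ 2 + 1 / (2 * μ) * ‖S t‖ ^ 2 - ‖P t‖ * ‖S t‖ = (μ * ‖P t‖ - ‖S t‖) ^ 2 / (2 * μ) := by
          field_simp
          ring
        have g5 : 0 ≤ (μ * ‖P t‖ - ‖S t‖) ^ 2 / (2 * μ) := by positivity
        linarith
      have g3 : 0 ≤ lam * ‖P t‖ := by positivity
      have g4 : 1 / (2 * μ) * ‖S t‖ ^ 2 ≤ 1 / (2 * μ) * (‖S t‖ ^ (2 * h) / lam ^ (2 * h - 2)) := by gcongr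
      linarith
  have hsum := hle.trans (sum_le_sum hpt)
  rw [sum_add_distrib, sum_add_distrib, ← mul_sum, ← mul_sum, ← mul_sum, ← sum_div] at hsum
  have hfin : (∑ i, ‖w (n i)‖) * M ≤ (lam * W + μ / 2 * W₂ + 1 / (2 * μ) * ((En h (fun i => (n i : ℤ)) : ℝ) / lam ^ (2 * h - 2))) * M := by
    refine hsum.trans ?_
    have g1 : lam * ∑ t ∈ range M, ‖P t‖ ≤ lam * (M * W) := by gcongr
    have g2 : μ / 2 * ∑ t ∈ range M, ‖P t‖ ^ 2 ≤ μ / 2 * (M * W₂) := by gcongr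
    have g3 : 1 / (2 * μ) * ((∑ t ∈ range M, ‖S t‖ ^ (2 * h)) / lam ^ (2 * h - 2)) ≤
        1 / (2 * μ) * ((M * En h (fun i => (n i : ℤ))) / lam ^ (2 * h - 2)) := by gcongr
    have g4 : 1 / (2 * μ) * ((M * (En h (fun i => (n i : ℤ)) : ℝ)) / lam ^ (2 * h - 2)) =
      1 / (2 * μ) * (((En h (fun i => (n i : ℤ)) : ℝ)) / lam ^ (2 * h - 2)) * M := by ring
    linarith
  have := le_of_mul_le_mul_right hfin hM0
  rw [hw] at this
  exact this

end Pool.Agent.H96.EM
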