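import Pool.Agent.H96.EM.A
import Pool.Agent.H96.PR.G
import Pool.Graph.R_seed8.R460.GP.Core

set_option autoImplicit false

/-! The same for differences. -/

namespace Pool.Agent.H96.EM
open Finset
open Pool.Agent.TH935.GF (En)
open Pool.Agent.R460.GP (cvd)

/-- the reflected function -/
noncomputable def rfl' (G : ℕ → ℂ) (y N j : ℕ) : ℂ := if 1 ≤ j ∧ j ≤ N ∧ N + 1 - j ≤ y then (starRingEnd ℂ) (G (N + 1 - j)) else 0

lemma cv_rfl (F G : ℕ → ℂ) (y₁ y₂ N n : ℕ) (h2 : y₂ ≤ N) :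
    cv F (rfl' G y₂ N) y₁ N n = cvd F G y₁ y₂ ((n : ℤ) - (N + 1 : ℕ)) := by
  unfold cv cvd
  apply sum_congr rfl
  intro b _
  have e1 : ∑ c ∈ Icc 1 N, (if b + c = n then F b * rfl' G y₂ N c else 0) =
      ∑ c ∈ Icc 1 N, (if b + (N + 1 - c) = n then F b * rfl' G y₂ N (N + 1 - c) else 0) := by
    apply sum_bij' (fun c _ => N + 1 - c) (fun c _ => N + 1 - c)
    · intro c hc; rw [mem_Icc] at hc ⊢; omega
    · intro c hc; rw [mem_Icc] at hc ⊢; omega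
    · intro c hc; rw [mem_Icc] at hc; omega
    · intro c hc; rw [mem_Icc] at hc; omega
    · intro c hc
      rw [mem_Icc] at hc
      have : N + 1 - (N + 1 - c) = c := by omega
      rw [this]
  rw [e1]
  have e2 : ∀ c ∈ Icc 1 N, (if b + (N + 1 - c) = n then F b * rfl' G y₂ N (N + 1 - c) else 0) =
      if c ≤ y₂ then (if (b : ℤ) - c = (n : ℤ) - (N + 1 : ℕ) then F b * (starRingEnd ℂ) (G c) else 0) else 0 := by
    intro c hc
    rw [mem_Icc] at hc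
    have h3 : N + 1 - (N + 1 - c) = c := by omega
    unfold rfl'
    rw [h3]
    by_cases hcy : c ≤ y₂
    · rw [if_pos hcy, if_pos (⟨by omega, by omega, hcy⟩ : 1 ≤ N + 1 - c ∧ N + 1 - c ≤ N ∧ c ≤ y₂)]
      by_cases h4 : b + (N + 1 - c) = n
      · rw [if_pos h4, if_pos (by omega)]
      · rw [if_neg h4, if_neg (by omega)]
    · rw [if_neg hcy, if_neg (fun h4 : 1 ≤ N + 1 - c ∧ N + 1 - c ≤ N ∧ c ≤ y₂ => hcy h4.2.2)]
      simp
  rw [sum_congr rfl e2, ← sum_filter]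
  have e3 : (Icc 1 N).filter (fun c => c ≤ y₂) = Icc 1 y₂ := by
    ext c
    rw [mem_filter, mem_Icc, mem_Icc]
    omega
  rw [e3]

lemma sum_rfl (G : ℕ → ℂ) (y N : ℕ) : ∑ b ∈ Icc 1 N, ‖rfl' G y N b‖ ^ 2 ≤ ∑ b ∈ Icc 1 N, ‖G b‖ ^ 2 := by
  have e1 : ∑ b ∈ Icc 1 N, ‖G b‖ ^ 2 = ∑ b ∈ Icc 1 N, ‖G (N + 1 - b)‖ ^ 2 := by
    apply sum_bij' (fun c _ => N + 1 - c) (fun c _ => N + 1 - c)
    · intro c hc; rw [mem_Icc] at hc ⊢; omega
    · intro c hc; rw [mem_Icc] at hc ⊢; omega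
    · intro c hc; rw [mem_Icc] at hc; omega
    · intro c hc; rw [mem_Icc] at hc; omega
    · intro c hc
      rw [mem_Icc] at hc
      have : N + 1 - (N + 1 - c) = c := by omega
      rw [this]
  rw [e1]
  apply sum_le_sum
  intro b _
  unfold rfl'
  split_ifs
  · rw [RCLike.norm_conj]
  · rw [norm_zero, zero_pow two_ne_zero]
    exact sq_nonneg _

/-- **From the mean square of correlations to families.** -/
theorem fam_cvd (F G : ℕ → ℂ) (y₁ y₂ N q h : ℕ) [NeZero q] (hh : 1 ≤ h) (a : ZMod q) (h1 : y₁ ≤ N) (h2 : y₂ ≤ N)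
    (W W₂ : ℝ) (hF : ∑ b ∈ Icc 1 N, ‖F b‖ ^ 2 ≤ W) (hG : ∑ b ∈ Icc 1 N, ‖G b‖ ^ 2 ≤ W)
    (hW₂ : ∑ n ∈ (Icc (-(N : ℤ)) N).filter (fun n : ℤ => (n : ZMod q) = a), ‖cvd F G y₁ y₂ n‖ ^ 2 ≤ W₂)
    {ι : Type} [Fintype ι] (d : ι → ℤ) (hd : ∀ i, (d i : ZMod q) = a ∧ -(N : ℤ) ≤ d i ∧ d i < N)
    (lam μ : ℝ) (hlam : 0 < lam) (hμ : 0 < μ) :
    ∑ i, ‖cvd F G y₁ y₂ (d i)‖ ≤ lam * W + μ / 2 * W₂ + 1 / (2 * μ) * ((En h d : ℝ) / lam ^ (2 * h - 2)) := by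
  obtain ⟨n, hn⟩ : ∃ n : ι → ℕ, n = fun i => (d i + (N + 1 : ℕ)).toNat := ⟨_, rfl⟩
  have hn1 : ∀ i, ((n i : ℕ) : ℤ) = d i + (N + 1 : ℕ) := by
    intro i
    have := (hd i).2.1
    rw [hn]
    simp only
    rw [Int.toNat_of_nonneg]
    push_cast
    omega
  have hcl : ∀ i, n i ∈ Cl N q (a + (N + 1 : ℕ)) := by
    intro i
    have h3 := hd i
    have h4 := hn1 i
    unfold Cl
    rw [mem_filter, mem_Icc]
    refine ⟨by omega, ?_⟩
    have h5 : ((n i : ℕ) : ZMod q) = (((n i : ℕ) : ℤ) : ZMod q) := by push_cast; rfl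
    rw [h5, h4]
    push_cast
    rw [h3.1]
  have key := fam_l1 F (rfl' G y₂ N) y₁ N N q h hh (a + (N + 1 : ℕ)) h1 le_rfl W W₂ hF ((sum_rfl G y₂ N).trans hG) ?_ n hcl
    lam μ hlam hμ
  · have e1 : ∀ i, cv F (rfl' G y₂ N) y₁ N (n i) = cvd F G y₁ y₂ (d i) := by
      intro i
      rw [cv_rfl F G y₁ y₂ N (n i) h2]
      congr 1
      rw [hn1]
      ring
    have e2 : En h (fun i => (n i : ℤ)) = En h d := by
      have : (fun i => (n i : ℤ)) = fun i => d i + (N + 1 : ℕ) := funext hn1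
      rw [this, Pool.Agent.H96.PR.En_shift]
    rw [e2, sum_congr rfl (fun i _ => by rw [e1 i])] at key
    exact key
  · refine le_trans ?_ hW₂
    have e3 : ∑ n ∈ Cl N q (a + (N + 1 : ℕ)), ‖cv F (rfl' G y₂ N) y₁ N n‖ ^ 2 =
        ∑ n ∈ (Cl N q (a + (N + 1 : ℕ))).image (fun n : ℕ => (n : ℤ) - (N + 1 : ℕ)), ‖cvd F G y₁ y₂ n‖ ^ 2 := by
      rw [sum_image (fun x _ y _ hxy => by
        have h5 : (x : ℤ) - (N + 1 : ℕ) = (y : ℤ) - (N + 1 : ℕ) := hxy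
        omega)]
      apply sum_congr rfl
      intro m _
      rw [cv_rfl F G y₁ y₂ N m h2]
    rw [e3]
    apply sum_le_sum_of_subset_of_nonneg
    · intro k hk
      rw [mem_image] at hk
      obtain ⟨m, hm, rfl⟩ := hk
      unfold Cl at hm
      rw [mem_filter, mem_Icc] at hm
      rw [mem_filter, mem_Icc]
      refine ⟨by push_cast; omega, ?_⟩
      push_cast
      rw [hm.2]
      push_cast
      ring
    · intro _ _ _
      positivity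

end Pool.Agent.H96.EM
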